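import Pool.Agent.W2helper58.GF.Stm

/-!
# Piece H2 of project GF: the choice of a block, and the circuit which looks at one cell
-/

namespace Pool.Agent.W2helper12.GF

open Pool.Agent.NPC Pool.Agent.H620R2.Gauge Pool.Agent.W2helper58.GF

theorem eval_le_mul_pow (P : Polynomial ℕ) {n : ℕ} (hn : 1 ≤ n) :
    P.eval n ≤ P.eval 1 * n ^ P.natDegree := by
  rw [Polynomial.eval_eq_sum_range, Polynomial.eval_eq_sum_range, Finset.sum_mul]
  refine Finset.sum_le_sum fun i hi => ?_
  rw [one_pow, mul_one]
  exact Nat.mul_le_mul_left _ (Nat.pow_le_pow_right hn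
    (Nat.lt_succ_iff.1 (Finset.mem_range.1 hi)))

theorem eventually_pow_lt (D : ℕ) : ∀ᶠ n : ℕ in Filter.atTop, n ^ D < 2 ^ n := by
  have h := tendsto_pow_const_div_const_pow_of_one_lt D (r := (2 : ℝ)) one_lt_two
  filter_upwards [h.eventually (gt_mem_nhds (zero_lt_one : (0 : ℝ) < 1))] with n hn
  rw [div_lt_one (by positivity)] at hn
  exact_mod_cast hn

theorem p_stage : P_stage := by
  intro f hf P prev
  unfold Cond at hf
  push Not at hf
  set D := P.natDegree + 1 with hD
  obtain ⟨n₁, hn₁⟩ := Filter.eventually_atTop.1 (eventually_pow_lt D)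
  have h1 := hf (D + 2)
  rw [Filter.frequently_atTop] at h1
  obtain ⟨N, hN, hNf⟩ := h1 (2 ^ (n₁ + prev + 32 * (P.eval 1 + 1) + 7))
  set n := Nat.log 2 N with hn
  have hN0 : N ≠ 0 := by
    have : 0 < 2 ^ (n₁ + prev + 32 * (P.eval 1 + 1) + 7) := by positivity
    omega
  have hn2 : n₁ + prev + 32 * (P.eval 1 + 1) + 7 ≤ n := Nat.le_log_of_pow_le (by norm_num) hN
  have hpow : 2 ^ n ≤ N := Nat.pow_log_le_self 2 hN0
  have hNlt : N < 2 ^ (n + 1) := Nat.lt_pow_succ_log_self (by norm_num) N
  have hn1 : 1 ≤ n := by omega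
  have hnD : n ^ D < 2 ^ n := hn₁ n (by omega)
  have hnD0 : n ^ D ≠ 0 := by positivity
  set k := Nat.log 2 (n ^ D) with hk
  have hk1 : 2 ^ k ≤ n ^ D := Nat.pow_log_le_self 2 hnD0
  have hk2 : n ^ D < 2 ^ (k + 1) := Nat.lt_pow_succ_log_self (by norm_num) _
  have hkn : k ≤ n := by
    have : 2 ^ k < 2 ^ n := lt_of_le_of_lt hk1 hnD
    exact ((Nat.pow_lt_pow_iff_right (by norm_num)).1 this).le
  have hP : 32 * (P.eval n + 1) ≤ n ^ D := by
    have h2 := eval_le_mul_pow P hn1
    have h3 : 1 ≤ n ^ P.natDegree := Nat.one_le_pow _ _ hn1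
    calc 32 * (P.eval n + 1) ≤ 32 * (P.eval 1 * n ^ P.natDegree + n ^ P.natDegree) := by
          apply Nat.mul_le_mul_left; omega
      _ = n ^ P.natDegree * (32 * (P.eval 1 + 1)) := by ring
      _ ≤ n ^ P.natDegree * n := Nat.mul_le_mul_left _ (by omega)
      _ = n ^ D := by rw [hD, pow_succ]
  have hP2 : 16 * (P.eval n + 1) ≤ 2 ^ k := by
    have e : 2 ^ (k + 1) = 2 ^ k * 2 := pow_succ 2 k
    omega
  refine ⟨n, k, by omega, ?_, hkn, hP2, ?_⟩
  · by_contra h
    have : k = 0 := by omega
    rw [this, pow_zero] at hP2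
    omega
  · intro N' hN'
    have h2 : N ≤ N' := by
      have : 2 ^ (n + 1) ≤ 2 ^ (7 * n + 3 * k + 4) :=
        Nat.pow_le_pow_right (by norm_num) (by omega)
      omega
    refine le_trans ?_ (hNf N' h2).le
    have h3 : (n : ℝ) ≤ Real.logb 2 N := by
      rw [Real.le_logb_iff_rpow_le (by norm_num) (by exact_mod_cast Nat.pos_of_ne_zero hN0),
        Real.rpow_natCast]
      exact_mod_cast hpow
    refine le_trans ?_ (pow_le_pow_left₀ (by positivity) h3 (D + 2))
    have h4 : prev + 2 ^ (k + 1) * (3 * n) ≤ n ^ (D + 2) := by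
      have h5 : 2 ^ (k + 1) * (3 * n) ≤ 6 * (n ^ D * n) := by
        rw [pow_succ]
        calc 2 ^ k * 2 * (3 * n) ≤ n ^ D * 2 * (3 * n) := by gcongr
          _ = 6 * (n ^ D * n) := by ring
      have h6 : prev ≤ n ^ D * n := by
        calc prev ≤ 1 * n := by omega
          _ ≤ n ^ D * n := Nat.mul_le_mul_right _ (Nat.one_le_pow _ _ hn1)
      calc prev + 2 ^ (k + 1) * (3 * n) ≤ n ^ D * n + 6 * (n ^ D * n) := Nat.add_le_add h6 h5
        _ = (n ^ D * n) * 7 := by ring
        _ ≤ (n ^ D * n) * n := Nat.mul_le_mul_left _ (by omega)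
        _ = n ^ (D + 2) := by ring
    exact_mod_cast h4

/-- a constant wire -/
def cwire (c : Bool) : Wire := ⟨Src.const, c⟩

/-- the wires of the oracle gate -/
def lookWires (n k : ℕ) : List Wire :=
  (pairBits (inp n k) []).map cwire ++ (cwire true :: ((List.range k).map (fun i =>
    (⟨Src.input i, false⟩ : Wire)) ++ List.replicate (3 * n) (cwire false)))

theorem cwire_val (x g : List Bool) (c : Bool) : (cwire c).val x g = c := by
  simp [cwire, Wire.val, Src.val]

theorem p_look : P_look := by
  intro n k _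
  refine ⟨⟨[Gate.ask (lookWires n k)], ⟨Src.gate 0, false⟩⟩, ?_, ?_⟩
  · simp only [Circuit.size, List.map_cons, List.map_nil, List.sum_cons, List.sum_nil, Gate.size,
      lookWires, List.length_append, List.length_map, List.length_cons, List.length_replicate,
      List.length_range, length_pairBits, W2helper58.GF.inp, List.length_nil, outLen]
    omega
  · intro B x
    have h1 : (lookWires n k).map (Wire.val x []) =
        adr n k true ((List.range k).map fun i => x.getD i false) 0 := by
      unfold lookWires adr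
      have e : ∀ y w : List Bool, pairBits y w = pairBits y [] ++ w := by
        intro y w
        simp [pairBits]
      rw [e (inp n k) (true :: _)]
      have e2 : (Wire.val x []) ∘ cwire = id := by
        funext c
        exact cwire_val x [] c
      simp only [List.map_append, List.map_map, List.map_cons, e2, List.map_id, cwire_val,
        List.map_replicate, List.replicate_zero, List.nil_append, Nat.sub_zero]
      congr 3
      apply List.map_congr_left
      intro i _
      simp [Wire.val, Src.val]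
    simp only [Circuit.eval, Circuit.values, List.foldl_cons, List.foldl_nil, List.nil_append,
      Wire.val, Src.val, Gate.val]
    unfold look
    rw [← h1]
    simp

end Pool.Agent.W2helper12.GF
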