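import Pool.Agent.W2helper58.GF.Stm
import Pool.Agent.H620R2.GaugeR.R2

/-!
# Piece F2 of project GF: majority votes
-/

namespace Pool.Agent.W2helper12.GF

open Pool.Agent.NPC Pool.Agent.H620R2.Gauge Pool.Agent.W2helper58.GF

/-! ### Polynomial-time computable auxiliary functions -/

theorem bits_getD_zero (j : ℕ) : j.bits.getD 0 false = (j % 2 == 1) := by
  rcases Nat.eq_zero_or_pos j with rfl | hj
  · simp
  · have h : Nat.bit (j.bodd) (j.div2) = j := Nat.bit_bodd_div2 j
    have h2 : j.bits = j.bodd :: j.div2.bits := by
      conv_lhs => rw [← h]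
      rw [Nat.bits_append_bit]
      intro h3
      by_contra h4
      rw [h3] at h
      simp only [Bool.not_eq_true] at h4
      rw [h4] at h
      simp at h
      omega
    rw [h2, List.getD_cons_zero, Nat.bodd_eq_one_and_ne_zero]
    rcases Nat.mod_two_eq_zero_or_one j with h5 | h5 <;> simp [Nat.one_and_eq_mod_two, h5]

theorem bits_getD_succ (j k : ℕ) : j.bits.getD (k + 1) false = (j / 2).bits.getD k false := by
  rcases Nat.eq_zero_or_pos j with rfl | hj
  · simp
  · have h : Nat.bit (j.bodd) (j.div2) = j := Nat.bit_bodd_div2 j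
    have h2 : j.bits = j.bodd :: j.div2.bits := by
      conv_lhs => rw [← h]
      rw [Nat.bits_append_bit]
      intro h3
      by_contra h4
      rw [h3] at h
      simp only [Bool.not_eq_true] at h4
      rw [h4] at h
      simp at h
      omega
    rw [h2, List.getD_cons_succ, Nat.div2_val]

theorem bitsOf_eq (n j : ℕ) : bitsOf n j = (List.range n).map (fun k => j.bits.getD k false) := by
  induction n generalizing j with
  | zero => rfl
  | succ n ih =>
    rw [bitsOf, ih, List.range_succ_eq_map, List.map_cons, List.map_map, bits_getD_zero]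
    congr 1
    apply List.map_congr_left
    intro k _
    simp only [Function.comp_apply, Nat.succ_eq_add_one]
    rw [bits_getD_succ]

theorem poly_bitsOf {α : Type} [TEnc α] {n : α → ℕ} {j : α → ℕ} (hn : UPoly n) (hj : Poly j) :
    Poly (fun a => bitsOf (n a) (j a)) := by
  refine (NPC.Poly.map (F := fun a k => (j a).bits.getD k false) hn.range
    (Poly.getD (Poly.natBits (hj.comp (Poly.fst Poly.id))) (Poly.snd Poly.id)
      (NPC.Poly.const _))).congr fun a => ?_
  rw [bitsOf_eq]

theorem upoly_size {α : Type} [TEnc α] {n : α → ℕ} (hn : Poly n) :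
    UPoly (fun a => Nat.size (n a)) := by
  refine (UPoly.length (Poly.natBits hn)).congr fun a => ?_
  show List.replicate (n a).bits.length () = _
  rw [Nat.size_eq_bits_len]

theorem poly_replicate {α : Type} [TEnc α] {n : α → ℕ} (hn : UPoly n) (b : Bool) :
    Poly (fun a => List.replicate (n a) b) := by
  refine (NPC.Poly.map (F := fun _ _ => b) hn.range (NPC.Poly.const _)).congr fun a => ?_
  rw [List.eq_replicate_iff]
  refine ⟨by simp, ?_⟩
  intro c hc
  rw [List.mem_map] at hc
  obtain ⟨_, _, rfl⟩ := hc
  rfl

/-- the questions -/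
def qs (p b T : Polynomial ℕ) (y : ℕ × List Bool) : List (List Bool) :=
  (List.range (p.eval y.2.length)).map (fun j =>
    sadr (bitsOf (Nat.size (T.eval y.2.length)) y.1) (b.eval y.2.length) j)

theorem poly_qs (p b T : Polynomial ℕ) : Poly (qs p b T) := by
  have hx : UPoly (fun a : (ℕ × List Bool) × ℕ => a.1.2.length) :=
    UPoly.length (Poly.snd (Poly.fst Poly.id))
  have hp := UPoly.eval hx p
  have hb := UPoly.eval hx b
  have hT := UPoly.eval hx T
  have hx' : UPoly (fun a : ℕ × List Bool => a.2.length) := UPoly.length (Poly.snd Poly.id)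
  have hmin : UPoly (fun a : (ℕ × List Bool) × ℕ => min a.2 (p.eval a.1.2.length)) :=
    UPoly.of_le (Poly.min (Poly.snd Poly.id) hp.toPoly) hp (fun a => min_le_right _ _)
  have hsub : UPoly (fun a : (ℕ × List Bool) × ℕ => b.eval a.1.2.length - a.2) :=
    UPoly.of_le (Poly.sub hb.toPoly (Poly.snd Poly.id)) hb (fun a => Nat.sub_le _ _)
  have hF : Poly (fun a : (ℕ × List Bool) × ℕ =>
      bitsOf (Nat.size (T.eval a.1.2.length)) a.1.1 ++
        (List.replicate (min a.2 (p.eval a.1.2.length)) true ++
          List.replicate (b.eval a.1.2.length - a.2) false)) :=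
    Poly.append (poly_bitsOf (upoly_size hT.toPoly) (Poly.fst (Poly.fst Poly.id)))
      (Poly.append (poly_replicate hmin true) (poly_replicate hsub false))
  refine (NPC.Poly.map (F := fun (a : ℕ × List Bool) (k : ℕ) =>
      bitsOf (Nat.size (T.eval a.2.length)) a.1 ++
        (List.replicate (min k (p.eval a.2.length)) true ++
          List.replicate (b.eval a.2.length - k) false)) (UPoly.eval hx' p).range hF).congr
    fun a => ?_
  unfold qs
  apply List.map_congr_left
  intro k hk
  rw [List.mem_range] at hk
  unfold sadr
  rw [min_eq_left hk.le]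

/-- counting votes -/
theorem votes_count (T : ℕ) (P : ℕ → Prop) [DecidablePred P] :
    (((List.range T).map (fun i => decide (P i))).filter (fun c => c)).length =
      Nat.card {i : Fin T // P i} := by
  classical
  rw [Nat.card_eq_fintype_card, Fintype.card_subtype, Finset.card_filter,
    Fin.sum_univ_eq_sum_range (fun i => if P i then 1 else 0) T]
  induction T with
  | zero => simp
  | succ T ih =>
    rw [List.range_succ, Finset.sum_range_succ, List.map_append, List.filter_append,
      List.length_append, ih]
    by_cases h : P T <;> simp [h]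

/-- the decision -/
noncomputable def dcs (n₀ : ℕ) (tab : List (List Bool)) (y : List Bool × List Bool) : List Bool :=
  if y.1.length < n₀ then (if y.1 ∈ tab then [true] else [])
  else (if y.2.length < 2 * (y.2.filter (fun c => c)).length then [true] else [])

theorem poly_dcs (n₀ : ℕ) (tab : List (List Bool)) : Poly (dcs n₀ tab) := by
  have h1 : Poly (fun y : List Bool × List Bool => y.1.length) := Poly.length (Poly.fst Poly.id)
  have h2 : Poly (fun y : List Bool × List Bool => y.2.length) := Poly.length (Poly.snd Poly.id)
  have h3 : Poly (fun y : List Bool × List Bool => (y.2.filter (fun c => c)).length) :=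
    Poly.length (Poly.filter (p := fun _ c => c) (Poly.snd Poly.id) (Poly.snd Poly.id))
  have hm : Poly (fun y : List Bool × List Bool => decide (y.1 ∈ tab)) :=
    (Poly.decide_mem (Poly.fst Poly.id) (NPC.Poly.const tab)).congr fun a => by congr
  exact Poly.ite (Poly.decide_lt h1 (NPC.Poly.const _))
    (Poly.ite hm (NPC.Poly.const _) (NPC.Poly.const _))
    (Poly.ite (Poly.decide_lt h2 (Poly.mul (NPC.Poly.const 2) h3)) (NPC.Poly.const _)
      (NPC.Poly.const _))

theorem smpT_pos (b : Polynomial ℕ) (C n : ℕ) : 0 < (smpT b C).eval n := by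
  unfold smpT
  simp only [Polynomial.eval_mul, Polynomial.eval_C, Polynomial.eval_add, Polynomial.eval_X]
  positivity

open Classical in
theorem p_votes : P_votes := by
  intro A M V p b C L hM hB hL
  obtain ⟨n₀, hn₀⟩ := Filter.eventually_atTop.1 hB
  have hV : IsFP A V := ⟨M, hM⟩
  have hfin : {x : List Bool | x.length < n₀ ∧ x ∈ L}.Finite :=
    (List.finite_length_lt Bool n₀).subset (fun x hx => hx.1)
  set T := smpT b C with hT
  have hW : Poly (fun y : (ℕ × List Bool) × List Bool => pairBits y.2 y.1.2) :=
    H622R2.poly_pairBits (Poly.snd Poly.id) (Poly.snd (Poly.fst Poly.id))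
  have key := IsFP.votes hV T (poly_qs p b T) hW (poly_dcs n₀ hfin.toFinset.toList)
  refine ⟨_, key, fun x => ?_⟩
  have hq : ∀ i : ℕ, (qs p b T (i, x)).map A = List.ofFn (fun j : Fin (p.eval x.length) =>
      A (sadr (bitsOf (Nat.size (T.eval x.length)) i) (b.eval x.length) j)) := by
    intro i
    unfold qs
    rw [List.map_map, List.ofFn_eq_map, ← List.map_coe_finRange_eq_range, List.map_map]
    rfl
  simp only [hq]
  unfold dcs
  simp only [List.length_map, List.length_range]
  rw [votes_count]
  by_cases hx : x.length < n₀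
  · rw [if_pos hx]
    by_cases hxL : x ∈ L
    · have : x ∈ hfin.toFinset.toList := by
        rw [Finset.mem_toList, Set.Finite.mem_toFinset]
        exact ⟨hx, hxL⟩
      simp [hxL, this]
    · have : x ∉ hfin.toFinset.toList := by
        rw [Finset.mem_toList, Set.Finite.mem_toFinset]
        exact fun h => hxL h.2
      simp [hxL, this]
  · rw [if_neg hx]
    have h1 := hn₀ x.length (not_lt.1 hx)
    unfold BadB at h1
    push Not at h1
    have h2 := h1 x rfl
    rw [← hT] at h2
    simp only [hM, Option.some.injEq] at h2
    have h3 := hL x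
    unfold accPr at h3
    set c := Nat.card {i : Fin (T.eval x.length) // V (pairBits (List.ofFn fun j : Fin (p.eval x.length) =>
        A (sadr (bitsOf (Nat.size (T.eval x.length)) i) (b.eval x.length) j)) x) = [true]} with hc
    have hTpos : (0 : ℝ) < T.eval x.length := by exact_mod_cast smpT_pos b C _
    rw [abs_le] at h2
    by_cases hxL : x ∈ L
    · have h4 := h3.1 hxL
      have h5 : (1 / 2 : ℝ) < (c : ℝ) / T.eval x.length := by linarith [h2.1]
      rw [lt_div_iff₀ hTpos] at h5
      have h6 : T.eval x.length < 2 * c := by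
        have : ((T.eval x.length : ℕ) : ℝ) < 2 * c := by linarith
        exact_mod_cast this
      simp [hxL, h6]
    · have h4 := h3.2 hxL
      have h5 : (c : ℝ) / T.eval x.length < (1 / 2 : ℝ) := by linarith [h2.2]
      rw [div_lt_iff₀ hTpos] at h5
      have h6 : ¬ T.eval x.length < 2 * c := by
        have : (2 * c : ℝ) < ((T.eval x.length : ℕ) : ℝ) := by linarith
        have h7 : 2 * c < T.eval x.length := by exact_mod_cast this
        omega
      simp [hxL, h6]

end Pool.Agent.W2helper12.GF
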